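import Pool.Agent.W348.RG.Stms

/-! Subtasks RG-CF and RG-NSS (owner helper348). -/

set_option autoImplicit false

namespace Pool.Agent.W216.RG

open Pool.Agent.W348.RG

theorem cf : S_cf := by
  intro R F _ _ _ _ f hf hn
  obtain ⟨s, hs⟩ := exists_isTranscendenceBasis ℚ F
  have halg : Algebra.IsAlgebraic (IntermediateField.adjoin ℚ (Set.range (Subtype.val : s → F))) F :=
    hs.isAlgebraic_field
  have hsep : Algebra.IsSeparable
      (IntermediateField.adjoin ℚ (Set.range (Subtype.val : s → F))) F := inferInstance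
  have hsm : Algebra.FormallySmooth ℚ F :=
    Algebra.FormallySmooth.of_algebraicIndependent_of_isSeparable hs.1
  have hg : Function.Surjective (f.toRatAlgHom : R →ₐ[ℚ] F) := hf
  have hker : RingHom.ker ((f.toRatAlgHom : R →ₐ[ℚ] F) : R →+* F) = RingHom.ker f := rfl
  have hnil : IsNilpotent (RingHom.ker ((f.toRatAlgHom : R →ₐ[ℚ] F) : R →+* F)) := by
    obtain ⟨n, hn⟩ := hn
    exact ⟨n, by rw [hker, hn]; rfl⟩
  refine ⟨(Algebra.FormallySmooth.liftOfSurjective (AlgHom.id ℚ F) f.toRatAlgHom hg hnil :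
    F →ₐ[ℚ] R), fun a => ?_⟩
  exact Algebra.FormallySmooth.liftOfSurjective_apply (AlgHom.id ℚ F) f.toRatAlgHom hg hnil a

theorem nss : S_nss := by
  intro n P F _ _ x hx
  by_contra hcon
  have hempty : MvPolynomial.zeroLocus (AlgebraicClosure ℚ) (Ideal.span P) = ∅ := by
    rw [Set.eq_empty_iff_forall_notMem]
    intro y hy
    apply hcon
    refine ⟨y, fun f hf => ?_⟩
    exact MvPolynomial.mem_zeroLocus_iff.1 hy f (Ideal.subset_span hf)
  have h1 := MvPolynomial.vanishingIdeal_zeroLocus_eq_radical (K := AlgebraicClosure ℚ)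
    (Ideal.span P)
  rw [hempty, MvPolynomial.vanishingIdeal_empty] at h1
  have h2 : Ideal.span P = ⊤ := Ideal.radical_eq_top.1 h1.symm
  have h3 : Ideal.span P ≤ RingHom.ker (MvPolynomial.aeval x : MvPolynomial (Fin n) ℚ →ₐ[ℚ] F) := by
    rw [Ideal.span_le]
    intro f hf
    exact hx f hf
  rw [h2] at h3
  have h4 : (1 : MvPolynomial (Fin n) ℚ) ∈
      RingHom.ker (MvPolynomial.aeval x : MvPolynomial (Fin n) ℚ →ₐ[ℚ] F) := h3 trivial
  rw [RingHom.mem_ker, map_one] at h4
  exact one_ne_zero h4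

end Pool.Agent.W216.RG
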