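import Pool.Agent.W348.RG.Stms

/-! Subtask RG-MAL (owner helper348). -/

set_option autoImplicit false

namespace Pool.Agent.W216.RG

open Pool.Agent.W348.RG

attribute [local instance 100] LieRing.ofAssociativeRing

/-- the positive natural numbers -/
def posN : Submonoid ℕ where
  carrier := {n | 0 < n}
  mul_mem' := fun ha hb => Nat.mul_pos ha hb
  one_mem' := Nat.one_pos

theorem mem_posN (n : ℕ) : n ∈ posN ↔ 0 < n := Iff.rfl

theorem mal (h1 : S_exp) (h2 : S_hull) : S_mal := by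
  intro G _ r
  obtain ⟨A, hA, hL⟩ := h2 G r ⊤ posN ⊤ (fun h => Nat.lt_irrefl 0 h) (fun _ _ => Subring.mem_top _)
    (fun q _ => ⟨q.den, q.den_pos, q.num, by rw [mul_comm]; exact Rat.mul_den_eq_num q⟩)
    (fun _ _ _ => Subring.mem_top _)
  obtain ⟨e1, e2, -⟩ := h1 r.m
  have hρ : ∀ g : G, r.ρ g - 1 ∈ J r.m := by
    intro g i j hij
    rw [Matrix.sub_apply, r.uni g i j hij, Matrix.one_apply, sub_self]
  -- the Lie subalgebra
  let L : LieSubalgebra ℚ (Mt r.m) :=
    { carrier := A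
      add_mem' := fun ha hb => A.add_mem ha hb
      zero_mem' := A.zero_mem
      smul_mem' := fun c x hx => hL.smul c (Subring.mem_top _) x hx
      lie_mem' := fun {x y} hx hy => by
        show ⁅x, y⁆ ∈ A
        rw [Ring.lie_def]
        exact hL.br x hx y hy }
  have hle : malcev r ≤ L := by
    unfold malcev
    rw [LieSubalgebra.lieSpan_le]
    rintro _ ⟨g, rfl⟩
    show lg (r.ρ g) ∈ A
    rw [hA]
    refine ⟨(e2 _ (hρ g)).2, 1, Nat.one_pos, g, Subgroup.mem_top _, ?_⟩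
    rw [Nat.cast_one, one_smul]
    exact (e2 _ (hρ g)).1
  intro x hx
  have hxA : x ∈ A := hle hx
  obtain ⟨hJ, n, hn, g, -, hg⟩ := (hA x).1 hxA
  refine ⟨n, hn, g, ?_⟩
  rw [← hg]
  exact ((e1 _ ((J r.m).smul_mem _ hJ)).1).symm

end Pool.Agent.W216.RG
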